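import Mathlib

/-!
# Linear algebra for fields which are linearly disjoint from a closed field (helper96)
-/

set_option autoImplicit false

open Module

noncomputable section

namespace Pool.Agent.E8helper96.KP

/-- The fields `Λ` and `F` are linearly disjoint over `ℚ`: numbers of `F` which are linearly
independent over `ℚ` are linearly independent over `Λ`. -/
def LinDisj (Λ : IntermediateField ℚ ℂ) (F : Subfield ℂ) : Prop :=
  ∀ (m : ℕ) (e : Fin m → ℂ), (∀ i, e i ∈ F) → LinearIndependent ℚ e → LinearIndependent Λ e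

/-- the compositum of an algebraic field and a field -/
theorem mem_span_sup {k Λ : IntermediateField ℚ ℂ} (hk : ∀ x ∈ k, IsAlgebraic ℚ x) {g : ℕ}
    (κ : Fin g → ℂ) (hκ : ∀ x ∈ k, x ∈ Submodule.span ℚ (Set.range κ)) {x : ℂ}
    (hx : x ∈ k ⊔ Λ) : x ∈ Submodule.span Λ (Set.range κ) := by
  have h1 : x ∈ (k ⊔ Λ).toSubalgebra := hx
  have : @Algebra.IsAlgebraic ℚ k _ _ k.algebra' := by
    refine @Algebra.IsAlgebraic.mk ℚ k _ _ k.algebra' (fun x => ?_)
    have h2 := hk x x.2
    rwa [show (x : ℂ) = k.val x from rfl, isAlgebraic_algHom_iff k.val k.val.injective] at h2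
  rw [IntermediateField.sup_toSubalgebra_of_isAlgebraic_left] at h1
  have h2 : x ∈ Subalgebra.toSubmodule (k.toSubalgebra ⊔ Λ.toSubalgebra) := h1
  rw [← Subalgebra.mul_toSubmodule] at h2
  refine Submodule.mul_induction_on h2 ?_ (fun a b ha hb => Submodule.add_mem _ ha hb)
  intro a ha b hb
  have h3 : a ∈ Submodule.span ℚ (Set.range κ) := hκ a ha
  have h4 : a ∈ Submodule.span Λ (Set.range κ) := by
    have h5 : Submodule.span ℚ (Set.range κ) ≤
        (Submodule.span Λ (Set.range κ)).restrictScalars ℚ := by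
      rw [Submodule.span_le]
      exact fun y hy => Submodule.subset_span hy
    exact h5 h3
  have h6 : a * b = (⟨b, hb⟩ : Λ) • a := by
    change a * b = b * a
    ring
  rw [h6]
  exact Submodule.smul_mem _ _ h4

/-- linear disjointness over a finite extension -/
theorem LinDisj.sup {Λ : IntermediateField ℚ ℂ} {F : Subfield ℂ} (h : LinDisj Λ F)
    {k : IntermediateField ℚ ℂ} [FiniteDimensional ℚ k] (hk : ∀ x ∈ k, x ∈ F) {m : ℕ}
    {e : Fin m → ℂ} (he : ∀ i, e i ∈ F) (hi : LinearIndependent k e) :
    LinearIndependent ↥(k ⊔ Λ) e := by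
  classical
  let b := finBasis ℚ k
  let κ : Fin (finrank ℚ k) → ℂ := fun j => (b j : ℂ)
  have hκ : ∀ x ∈ k, x ∈ Submodule.span ℚ (Set.range κ) := by
    intro x hx
    have h1 : (⟨x, hx⟩ : k) ∈ Submodule.span ℚ (Set.range b) := by
      rw [b.span_eq]; exact Submodule.mem_top
    have h2 := Submodule.mem_map_of_mem (f := k.val.toLinearMap) h1
    rw [Submodule.map_span, ← Set.range_comp] at h2
    exact h2
  rw [Fintype.linearIndependent_iff]
  intro c hc i
  -- the coordinates
  have h1 : ∀ i, ∃ μ : Fin (finrank ℚ k) → Λ, ∑ j, μ j • κ j = (c i : ℂ) := by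
    intro i
    have := mem_span_sup (Λ := Λ) (fun x hx => by
      have h1 : IsAlgebraic ℚ (⟨x, hx⟩ : k) := Algebra.IsAlgebraic.isAlgebraic _
      exact h1.algebraMap (A := ℂ)) κ hκ (c i).2
    exact (Submodule.mem_span_range_iff_exists_fun Λ).1 this
  choose μ hμ using h1
  -- the products
  have h2 : LinearIndependent ℚ (fun q : Fin (finrank ℚ k) × Fin m => b q.1 • e q.2) :=
    linearIndependent_smul b.linearIndependent hi
  let σ := (Fintype.equivFin (Fin (finrank ℚ k) × Fin m)).symm
  have h3 : LinearIndependent ℚ (fun q => b (σ q).1 • e (σ q).2) := h2.comp σ σ.injective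
  have h4 := h _ (fun q => b (σ q).1 • e (σ q).2) (fun q => by
    change ((b (σ q).1 : k) : ℂ) * e (σ q).2 ∈ F
    exact mul_mem (hk _ (b (σ q).1).2) (he _)) h3
  have h5 : LinearIndependent Λ (fun q : Fin (finrank ℚ k) × Fin m => b q.1 • e q.2) := by
    have := h4.comp σ.symm σ.symm.injective
    convert this using 1
    funext q
    simp
  rw [Fintype.linearIndependent_iff] at h5
  have h6 := h5 (fun q => μ q.2 q.1) (by
    rw [Fintype.sum_prod_type, Finset.sum_comm, ← hc]
    refine Finset.sum_congr rfl (fun i _ => ?_)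
    change _ = (c i : ℂ) * e i
    rw [← hμ i, Finset.sum_mul]
    refine Finset.sum_congr rfl (fun j _ => ?_)
    change (μ i j : ℂ) * (κ j * e i) = (μ i j : ℂ) * κ j * e i
    ring)
  apply Subtype.ext
  change (c i : ℂ) = 0
  rw [← hμ i]
  refine Finset.sum_eq_zero (fun j _ => ?_)
  rw [h6 (j, i), zero_smul]

/-- a single number outside a relatively algebraically closed field -/
theorem LinDisj.simple {F : Subfield ℂ} (halg : ∀ x, IsAlgebraic F x → x ∈ F) {l : ℂ}
    (hl : l ∉ F) : LinDisj (IntermediateField.adjoin ℚ {l}) F := by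
  classical
  intro m e he hi
  rw [Fintype.linearIndependent_iff]
  intro c hc
  have h1 : ∀ i, ∃ P Q : Polynomial ℚ, (c i : ℂ) = Polynomial.aeval l P / Polynomial.aeval l Q :=
    fun i => IntermediateField.mem_adjoin_simple_iff ℚ (c i : ℂ) |>.1 (c i).2
  choose P Q hPQ using h1
  -- we may assume that the denominators do not vanish
  have h2 : ∀ i, ∃ P Q : Polynomial ℚ, Polynomial.aeval l Q ≠ 0 ∧
      (c i : ℂ) = Polynomial.aeval l P / Polynomial.aeval l Q := by
    intro i
    by_cases h0 : Polynomial.aeval l (Q i) = 0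
    · refine ⟨0, 1, by simp, ?_⟩
      rw [hPQ i, h0]
      simp
    · exact ⟨P i, Q i, h0, hPQ i⟩
  clear hPQ P Q
  choose P Q hQ hPQ using h2
  let R : Fin m → Polynomial ℚ := fun i => P i * ∏ j ∈ Finset.univ.erase i, Q j
  have hR : ∀ i, Polynomial.aeval l (R i) = (c i : ℂ) * ∏ j, Polynomial.aeval l (Q j) := by
    intro i
    rw [map_mul, map_prod, hPQ i, ← Finset.mul_prod_erase Finset.univ _ (Finset.mem_univ i)]
    have := hQ i
    field_simp
  have h3 : ∑ i, Polynomial.aeval l (R i) * e i = 0 := by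
    have h4 : ∑ i, (c i : ℂ) * e i = 0 := hc
    calc ∑ i, Polynomial.aeval l (R i) * e i
        = (∏ j, Polynomial.aeval l (Q j)) * ∑ i, (c i : ℂ) * e i := by
          rw [Finset.mul_sum]
          refine Finset.sum_congr rfl (fun i _ => ?_)
          rw [hR i]
          ring
      _ = 0 := by rw [h4, mul_zero]
  have htr : Transcendental F l := fun h => hl (halg l h)
  let T : Polynomial F := ∑ i, Polynomial.C (⟨e i, he i⟩ : F) * (R i).map (algebraMap ℚ F)
  have hT : Polynomial.aeval l T = 0 := by
    simp only [T, map_sum, map_mul, Polynomial.aeval_C, Polynomial.aeval_map_algebraMap]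
    rw [← h3]
    refine Finset.sum_congr rfl (fun i _ => ?_)
    change e i * _ = _
    ring
  have hT0 : T = 0 := (transcendental_iff.1 htr) T hT
  have h5 : ∀ i, R i = 0 := by
    have h6 : ∀ n i, (R i).coeff n = 0 := by
      intro n
      have h7 : T.coeff n = 0 := by rw [hT0, Polynomial.coeff_zero]
      have h8 : ∑ i, (R i).coeff n • e i = 0 := by
        have h9 : ((T.coeff n : F) : ℂ) = 0 := by rw [h7]; rfl
        have h10 : ((T.coeff n : F) : ℂ) =
            ∑ i, e i * ((algebraMap ℚ F ((R i).coeff n) : F) : ℂ) := by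
          simp only [T, Polynomial.finsetSum_coeff, Polynomial.coeff_C_mul,
            Polynomial.coeff_map]
          push_cast
          rfl
        rw [← h9, h10]
        refine Finset.sum_congr rfl (fun i _ => ?_)
        rw [Algebra.smul_def]
        have : ((algebraMap ℚ F ((R i).coeff n) : F) : ℂ) = algebraMap ℚ ℂ ((R i).coeff n) := rfl
        rw [this]
        ring
      exact Fintype.linearIndependent_iff.1 hi _ h8
    intro i
    ext n
    rw [h6 n i, Polynomial.coeff_zero]
  intro i
  have h6 := hR i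
  rw [h5 i, map_zero] at h6
  have h7 : (c i : ℂ) = 0 := by
    rcases mul_eq_zero.1 h6.symm with h | h
    · exact h
    · exact absurd h (Finset.prod_ne_zero_iff.2 (fun j _ => hQ j))
  exact Subtype.ext h7

section B

variable {k K' : Type} [Field k] [Field K'] [Algebra k ℂ] [Algebra K' ℂ] {F : Subfield ℂ}

/-- the part of a space in a multiple of the field -/
theorem part (hD : ∀ (m : ℕ) (e : Fin m → ℂ), (∀ i, e i ∈ F) → LinearIndependent k e →
      LinearIndependent K' e) {A : Submodule k ℂ} [FiniteDimensional k A] {W : Submodule K' ℂ}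
    [FiniteDimensional K' W] {c : ℂ} (hc : c ≠ 0) (hA : ∀ v ∈ A, c * v ∈ F) (hAW : ∀ v ∈ A, v ∈ W) :
    finrank k A ≤ finrank K' W ∧
    ∃ w : Fin (finrank K' W - finrank k A) → ℂ, (∀ i, w i ∈ W) ∧
      ∀ δ : Derivation ℚ ℂ ℂ, (∀ x ∈ F, δ x = 0) → (∀ x : K', δ (algebraMap K' ℂ x) = 0) →
        δ c = 0 → (∀ i, δ (w i) = 0) → ∀ x ∈ W, δ x = 0 := by
  classical
  let b := finBasis k A
  set a := finrank k A with ha
  let e : Fin a → ℂ := fun i => (b i : ℂ)
  have he : LinearIndependent k e := b.linearIndependent.map' A.subtype (Submodule.ker_subtype _)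
  have hce : LinearIndependent k (fun i => c * e i) := by
    have h1 := he.map' (LinearMap.mulLeft k c) (by
      rw [LinearMap.ker_eq_bot]
      intro x y hxy
      exact mul_left_cancel₀ hc hxy)
    exact h1
  have hce' := hD a (fun i => c * e i) (fun i => hA _ (b i).2) hce
  have he' : LinearIndependent K' e := LinearIndependent.of_comp (LinearMap.mulLeft K' c) hce'
  let Y : Submodule K' ℂ := Submodule.span K' (Set.range e)
  have hYW : Y ≤ W := by
    rw [Submodule.span_le]
    rintro _ ⟨i, rfl⟩
    exact hAW _ (b i).2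
  have hY : finrank K' Y = a := by
    rw [finrank_span_eq_card he', Fintype.card_fin]
  obtain ⟨Z, hZ⟩ := (Y.comap W.subtype).exists_isCompl
  have hfin : finrank K' (Y.comap W.subtype) + finrank K' Z = finrank K' W :=
    Submodule.finrank_add_eq_of_isCompl hZ
  have h2 : finrank K' (Y.comap W.subtype) = finrank K' Y :=
    (Submodule.comapSubtypeEquivOfLe hYW).finrank_eq
  rw [h2, hY] at hfin
  have hle : a ≤ finrank K' W := by omega
  have hZr : finrank K' Z = finrank K' W - a := by omega
  refine ⟨hle, ?_⟩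
  let z := finBasisOfFinrankEq K' Z hZr
  refine ⟨fun i => ((z i : W) : ℂ), fun i => (z i : W).2, ?_⟩
  intro δ hF hK hcδ hw x hx
  -- the numbers killed by the derivation
  let N : Submodule K' ℂ :=
    { carrier := {y | δ y = 0}
      add_mem' := fun {u v} hu hv => by
        rw [Set.mem_ofPred_eq] at hu hv ⊢
        rw [map_add, hu, hv, add_zero]
      zero_mem' := map_zero _
      smul_mem' := fun r y hy => by
        rw [Set.mem_ofPred_eq] at hy ⊢
        rw [Algebra.smul_def, Derivation.leibniz, hy, hK]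
        simp }
  have hYN : Y ≤ N := by
    rw [Submodule.span_le]
    rintro _ ⟨i, rfl⟩
    change δ (e i) = 0
    have h3 : δ (c * e i) = 0 := hF _ (hA _ (b i).2)
    rw [Derivation.leibniz, hcδ, smul_zero, add_zero, smul_eq_mul] at h3
    exact (mul_eq_zero.1 h3).resolve_left hc
  have hZN : Z ≤ N.comap W.subtype := by
    have h3 : Z = Submodule.map Z.subtype (Submodule.span K' (Set.range z)) := by
      rw [z.span_eq, Submodule.map_top, Submodule.range_subtype]
    rw [h3, Submodule.map_span, Submodule.span_le]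
    rintro _ ⟨_, ⟨i, rfl⟩, rfl⟩
    exact hw i
  have h4 : (⟨x, hx⟩ : W) ∈ (Y.comap W.subtype) ⊔ Z := by
    rw [hZ.sup_eq_top]; exact Submodule.mem_top
  obtain ⟨u, hu, v, hv, huv⟩ := Submodule.mem_sup.1 h4
  have h5 : δ (u : ℂ) = 0 := hYN hu
  have h6 : δ (v : ℂ) = 0 := hZN hv
  have h7 : x = (u : ℂ) + (v : ℂ) := (congrArg (fun y : W => (y : ℂ)) huv).symm
  rw [h7, map_add, h5, h6, add_zero]

end B

end Pool.Agent.E8helper96.KP
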