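import Mathlib
import Pool.Agent.Y776.ET.Fin
import Pool.Agent.Y776.EtProof
import Pool.Agent.E8helper96.KP.LinA

/-!
# Ranks of points and exponents in spaces over a field which is linearly disjoint from a closed
field (helper96)
-/

set_option autoImplicit false

open Module
open scoped PeriodPair

noncomputable section

namespace Pool.Agent.E8helper96.KP

open H667R3 Pool.Agent.W245.EB Pool.Agent.TH813.Ell Pool.Agent.Y776 Pool.Agent.Y685
  Pool.Agent.Y776.ET2
open Pool.Agent.TH813.Rel (DF MK mem_cl subset_cl rk_le_of_subset_cl cl_of_base)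

variable {n s : ℕ} {L L' : PeriodPair} {c : ℂ} {K : Subfield ℂ}

/-- **The rank of points and exponents** which are independent modulo the field -/
theorem low (hK : Fld K) (h : Hm L L' c) (hL' : L' ∈ LK K)
    (hcδ : ∀ δ : Derivation ℚ ℂ ℂ, δ L.g₂ = 0 → δ L.g₃ = 0 → δ c = 0) (t : Fin s → ℂ)
    (p : Fin n → ℂ) (A : Submodule (kL L) ℂ) (hAX : A ≤ V₂ L p)
    (hA : ∀ v ∈ V₂ L p, c * v ∈ K → v ∈ A) {b y : ℕ}
    (hb : b + finrank ℚ (VT t ⊓ FQ (IFd K) : Submodule ℚ ℂ) = finrank ℚ (VT t))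
    (hy : y + finrank (kL L) A = finrank (kL L) (V₂ L p)) (h0 : 0 < b + y) :
    ((b + 2 * y + 1 : ℕ) : ℕ∞) ≤ (MK (IFd K)).eRk (GA L t p) := by
  classical
  have hXf : FiniteDimensional (kL L) (V₂ L p) := inferInstance
  obtain ⟨Y, hYX, hYA, hYn⟩ := exists_rel_compl hAX
  have hYf : FiniteDimensional (kL L) Y := Submodule.finiteDimensional_of_le hYX
  obtain ⟨W, hWX, hWB, hWn⟩ := exists_rel_compl (inf_le_left : VT t ⊓ FQ (IFd K) ≤ VT t)
  have hWf : FiniteDimensional ℚ W := Submodule.finiteDimensional_of_le hWX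
  have hyr : y = finrank (kL L) Y := by omega
  have hbr : b = finrank ℚ W := by omega
  obtain ⟨r, hr, hrY, hrL⟩ : ∃ r : Fin y → ℂ, LinearIndependent (kL L) r ∧ (∀ i, r i ∈ Y) ∧
        ∀ i, r i ∉ L.lattice := by
    rw [hyr]
    exact exists_basis_off _
  obtain ⟨v, hv, hvW⟩ : ∃ v : Fin b → ℂ, LinearIndependent ℚ v ∧ (∀ i, v i ∈ W) := by
    rw [hbr]
    obtain ⟨v, h1, h2, -⟩ := exists_basisQ W
    exact ⟨v, h1, h2⟩
  have hrind : ∀ a : Fin y → ℂ, (∀ i, a i ∈ kL L') → ∑ i, a i * (c * r i) ∈ K → a = 0 := by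
    intro a ha hs
    refine li_iff.1 hr a (fun i => h.kL.1 (ha i)) ?_
    have h1 : ∑ i, a i * r i ∈ Y := by
      have : ∑ i, a i * r i = ∑ i, (⟨a i, h.kL.1 (ha i)⟩ : kL L) • r i := rfl
      rw [this]
      exact sum_mem (fun i _ => Submodule.smul_mem _ _ (hrY i))
    have h2 : ∑ i, a i * r i ∈ A := by
      refine hA _ (hYX h1) ?_
      rw [Finset.mul_sum]
      have : ∑ i, c * (a i * r i) = ∑ i, a i * (c * r i) :=
        Finset.sum_congr rfl (fun i _ => by ring)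
      rw [this]
      exact hs
    have h3 : ∑ i, a i * r i ∈ Y ⊓ A := ⟨h1, h2⟩
    rw [hYA] at h3
    exact (Submodule.mem_bot _).1 h3
  have hvind : ∀ g : Fin b → ℚ, ∑ i, g i • v i ∈ K → g = 0 := by
    intro g hg
    have h1 : ∑ i, g i • v i ∈ W := sum_mem (fun i _ => Submodule.smul_mem _ _ (hvW i))
    have h3 : ∑ i, g i • v i ∈ W ⊓ (VT t ⊓ FQ (IFd K)) := ⟨h1, hWX h1, hg⟩
    rw [hWB] at h3
    funext i
    exact Fintype.linearIndependent_iff.1 hv g ((Submodule.mem_bot _).1 h3) i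
  have h1 := hK.fix hL' (z := fun i => c * r i) (t := v) hrind hvind h0
  refine h1.trans (rk_le_of_subset_cl ?_)
  intro x hx
  exact sub_cl' h hcδ (fun i => hWX (hvW i)) (fun i => hYX (hrY i)) hrL (Or.inr hx)

theorem Hm_one (L : PeriodPair) : Hm L L 1 := ⟨one_ne_zero, fun x => by rw [one_mul]⟩

/-- the numbers of a lattice over the field are superfluous -/
theorem GA_fix (hK : Fld K) (hL : L ∈ LK K) (t : Fin s → ℂ) (p : Fin n → ℂ) :
    (MK (IFd K)).eRk (GA L t p) ≤ (MK (IFd K)).eRk (Y776.ET t ∪ EP L p) := by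
  apply rk_le_of_subset_cl
  rintro x (hx | hx)
  · have h1 : x ∈ K := GA_mem hK hL (u := (![] : Fin 0 → ℂ)) (fun i => i.elim0)
      (q := (![] : Fin 0 → ℂ)) (fun i => i.elim0) (Or.inl hx)
    exact cl_of_base (k := IFd K) _ ⟨x, h1⟩
  · exact subset_cl _ hx

/-- a finite transcendence basis of a field -/
theorem exists_tb (Λ : IntermediateField ℚ ℂ) {r : ℕ} (h : Algebra.trdeg ℚ Λ = r) :
    ∃ A : Set ℂ, A.Finite ∧ A.encard ≤ r ∧ A ⊆ Λ ∧
      ∀ δ : Derivation ℚ ℂ ℂ, (∀ x ∈ A, δ x = 0) → ∀ x ∈ Λ, δ x = 0 := by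
  classical
  obtain ⟨B, hB⟩ := exists_isTranscendenceBasis ℚ Λ
  have hcard : Cardinal.mk B = r := by rw [← h, hB.cardinalMk_eq_trdeg]
  have hfin : B.Finite := by
    rw [← Cardinal.lt_aleph0_iff_set_finite, hcard]
    exact Cardinal.natCast_lt_aleph0
  have hBcard : B.encard = r := by
    rw [Set.encard, ENat.card, hcard]
    exact Cardinal.toENat_nat r
  let f : Λ →+* ℂ := Λ.val.toRingHom
  have hf : Function.Injective f := Λ.val.injective
  refine ⟨Λ.val '' B, hfin.image _, ?_, ?_, ?_⟩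
  · exact (Set.encard_image_le _ _).trans hBcard.le
  · rintro _ ⟨x, -, rfl⟩
    exact x.2
  · intro δ hδ x hx
    have h1 : IsAlgebraic (Algebra.adjoin ℚ (Set.range ((↑) : B → Λ))) (⟨x, hx⟩ : Λ) :=
      hB.isAlgebraic.isAlgebraic _
    rw [Subtype.range_coe] at h1
    -- the image of the algebra
    have hmap : (Algebra.adjoin ℚ B).map Λ.val = Algebra.adjoin ℚ (Λ.val '' B) :=
      AlgHom.map_adjoin Λ.val B
    let g : Algebra.adjoin ℚ B →+* Algebra.adjoin ℚ (Λ.val '' B) :=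
      ((Λ.val.comp (Algebra.adjoin ℚ B).val).codRestrict _ (fun y => by
        rw [← hmap]
        exact ⟨y, y.2, rfl⟩)).toRingHom
    have hg : Function.Injective g := by
      intro a b hab
      have h2 : Λ.val (a : Λ) = Λ.val (b : Λ) := congrArg (fun z : Algebra.adjoin ℚ (Λ.val '' B) =>
        (z : ℂ)) hab
      exact Subtype.ext (Λ.val.injective h2)
    have h2 : IsAlgebraic (Algebra.adjoin ℚ (Λ.val '' B)) (Λ.val (⟨x, hx⟩ : Λ)) :=
      h1.ringHom_of_comp_eq g Λ.val.toRingHom hg (by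
        ext a
        rfl)
    have h3 : x ∈ (MK ℚ).closure (Λ.val '' B) := mem_cl.2 h2
    rw [← MK_FR ℚ] at h3
    refine (mem_cl_iff _ _).1 h3 δ ?_ hδ
    rintro _ ⟨q, rfl⟩
    exact δ.map_algebraMap q

/-- passing to a larger base field -/
theorem rank_step {C E : IntermediateField ℚ ℂ} {T S : Set ℂ} (hT : T.Finite) (hS : S.Finite)
    (hE : E ≤ clo C T) : (MK C).eRk (T ∪ S) ≤ (MK C).eRk T + (MK E).eRk S := by
  rw [rank_add hT hS]
  exact add_le_add le_rfl (rank_mono_base hE hS)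

end Pool.Agent.E8helper96.KP
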