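import Mathlib
import Pool.Agent.E8helper96.KP.Rank

/-!
# The elliptico-toric inequality in spaces over a field which is linearly disjoint from a closed
field (helper96)
-/

set_option autoImplicit false

open Module
open scoped PeriodPair

noncomputable section

namespace Pool.Agent.E8helper96.KP

open H667R3 Pool.Agent.W245.EB Pool.Agent.TH813.Ell Pool.Agent.Y776 Pool.Agent.Y685
  Pool.Agent.Y776.ET2
open Pool.Agent.TH813.Rel (DF MK mem_cl subset_cl rk_le_of_subset_cl cl_of_base)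
open Pool.Agent.Y776.Et (dimMod T₀ P₀ gen gen_GA trd trd_of_rank gen_finite rank_finite)

variable {n s : ℕ} {L L' : PeriodPair} {c : ℂ} {K : Subfield ℂ}

/-- `2πi Λ` -/
def TL (Λ : IntermediateField ℚ ℂ) : Submodule Λ ℂ := Submodule.span Λ {2 * Real.pi * Complex.I}

/-- the space over `k Λ` spanned by the lattice -/
def PL (Λ : IntermediateField ℚ ℂ) (L : PeriodPair) : Submodule ↥(Et.k L ⊔ Λ) ℂ :=
  Submodule.span ↥(Et.k L ⊔ Λ) (L.lattice : Set ℂ)

variable {Λ : IntermediateField ℚ ℂ}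

theorem dim_t (hD : LinDisj Λ K) (t : Fin s → ℂ) :
    finrank ℚ (VT t ⊓ FQ (IFd K) : Submodule ℚ ℂ) ≤ dimMod (TL Λ) t + 1 ∧
    ∃ w : Fin (dimMod (TL Λ) t + 1 - finrank ℚ (VT t ⊓ FQ (IFd K) : Submodule ℚ ℂ)) → ℂ,
      ∀ δ : Derivation ℚ ℂ ℂ, (∀ x ∈ K, δ x = 0) → (∀ x ∈ Λ, δ x = 0) → (∀ i, δ (w i) = 0) →
        ∀ i, δ (t i) = 0 := by
  classical
  have hTf : FiniteDimensional Λ (TL Λ) := FiniteDimensional.span_of_finite Λ (Set.finite_singleton _)
  have hsf : FiniteDimensional Λ (Submodule.span Λ (Set.range t)) :=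
    FiniteDimensional.span_of_finite Λ (Set.finite_range t)
  have hT1 : finrank Λ (TL Λ) = 1 := finrank_span_singleton Complex.two_pi_I_ne_zero
  have hW : dimMod (TL Λ) t + 1 =
      finrank Λ (TL Λ ⊔ Submodule.span Λ (Set.range t) : Submodule Λ ℂ) := by
    have := finrank_mod (TL Λ) t
    rw [hT1] at this
    exact this
  have hBf : FiniteDimensional ℚ (VT t ⊓ FQ (IFd K) : Submodule ℚ ℂ) :=
    Submodule.finiteDimensional_of_le inf_le_left
  have hle : VT t ≤ (TL Λ ⊔ Submodule.span Λ (Set.range t) : Submodule Λ ℂ).restrictScalars ℚ := by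
    refine sup_le ?_ ?_
    · unfold P₁
      rw [Submodule.span_le]
      rintro _ rfl
      exact Submodule.mem_sup_left (Submodule.mem_span_singleton_self _)
    · rw [Submodule.span_le]
      rintro _ ⟨i, rfl⟩
      exact Submodule.mem_sup_right (Submodule.subset_span ⟨i, rfl⟩)
  obtain ⟨h1, w, -, h2⟩ := part (F := K) hD (A := VT t ⊓ FQ (IFd K))
    (W := TL Λ ⊔ Submodule.span Λ (Set.range t)) (c := 1) one_ne_zero
    (fun v hv => by rw [one_mul]; exact hv.2) (fun v hv => hle hv.1)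
  rw [hW]
  refine ⟨h1, w, fun δ hδ hδΛ hw i => h2 δ hδ (fun x => hδΛ _ x.2) δ.map_one_eq_zero hw _ ?_⟩
  exact Submodule.mem_sup_right (Submodule.subset_span ⟨i, rfl⟩)

instance finK (L : PeriodPair) : FiniteDimensional ℚ (kL L) := by
  apply Module.finite_of_finrank_pos
  have h := finrank_P₂ L
  rcases Nat.eq_zero_or_pos (finrank ℚ (kL L)) with h0 | h0
  · rw [h0] at h
    omega
  · exact h0

/-- the multiples of the points of the space which lie in the field -/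
def cK (hK : ∀ a ∈ kL L, a ∈ K) (c : ℂ) : Submodule (kL L) ℂ where
  carrier := {x | c * x ∈ K}
  add_mem' := fun {a b} ha hb => by
    rw [Set.mem_ofPred_eq] at ha hb ⊢
    rw [mul_add]; exact add_mem ha hb
  zero_mem' := by
    rw [Set.mem_ofPred_eq, mul_zero]; exact zero_mem K
  smul_mem' := fun a x hx => by
    rw [Set.mem_ofPred_eq] at hx ⊢
    have e : c * (a • x) = (a : ℂ) * (c * x) := by
      change c * ((a : ℂ) * x) = _
      ring
    rw [e]
    exact mul_mem (hK _ a.2) hx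

instance finPL (Λ : IntermediateField ℚ ℂ) (L : PeriodPair) :
    FiniteDimensional ↥(Et.k L ⊔ Λ) (PL Λ L) := by
  have h1 : PL Λ L ≤ Submodule.span ↥(Et.k L ⊔ Λ) {L.ω₁, L.ω₂} := by
    unfold PL
    rw [Submodule.span_le]
    intro x hx
    obtain ⟨a, b, rfl⟩ := PeriodPair.mem_lattice.1 hx
    have h2 : (a : ℂ) * L.ω₁ + (b : ℂ) * L.ω₂ =
        (a : ↥(Et.k L ⊔ Λ)) • L.ω₁ + (b : ↥(Et.k L ⊔ Λ)) • L.ω₂ := by
      rw [Algebra.smul_def, Algebra.smul_def]
      simp
    rw [h2]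
    exact Submodule.add_mem _ (Submodule.smul_mem _ _ (Submodule.subset_span (by simp)))
      (Submodule.smul_mem _ _ (Submodule.subset_span (by simp)))
  have h2 : FiniteDimensional ↥(Et.k L ⊔ Λ) (Submodule.span ↥(Et.k L ⊔ Λ) {L.ω₁, L.ω₂}) :=
    FiniteDimensional.span_of_finite _ (Set.toFinite _)
  exact Submodule.finiteDimensional_of_le h1

theorem P₂_sub (Λ : IntermediateField ℚ ℂ) {L : PeriodPair} {x : ℂ} (hx : x ∈ P₂ L) :
    x ∈ PL Λ L := by
  obtain ⟨N, hN, h⟩ := hx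
  have hN0 : (N : ℂ) ≠ 0 := by exact_mod_cast hN.ne'
  have h1 : x = ((N : ↥(Et.k L ⊔ Λ))⁻¹) • ((N : ℂ) * x) := by
    rw [Algebra.smul_def]
    simp only [map_inv₀, map_natCast]
    field_simp
  rw [h1]
  exact Submodule.smul_mem _ _ (Submodule.subset_span h)

theorem finrank_PL_le (Λ : IntermediateField ℚ ℂ) (L : PeriodPair) :
    finrank ↥(Et.k L ⊔ Λ) (PL Λ L) ≤ finrank (kL L) (P₂ L) := by
  classical
  let b := finBasis (kL L) (P₂ L)
  have h1 : PL Λ L ≤ Submodule.span ↥(Et.k L ⊔ Λ) (Set.range (fun i => (b i : ℂ))) := by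
    unfold PL
    rw [Submodule.span_le]
    intro x hx
    have h2 : (⟨x, lattice_le_P₂ hx⟩ : P₂ L) ∈ Submodule.span (kL L) (Set.range b) := by
      rw [b.span_eq]; exact Submodule.mem_top
    obtain ⟨g, hg⟩ := (Submodule.mem_span_range_iff_exists_fun (kL L)).1 h2
    have h3 : x = ∑ i, (⟨(g i : ℂ), (le_sup_left : Et.k L ≤ Et.k L ⊔ Λ) (g i).2⟩ :
        ↥(Et.k L ⊔ Λ)) • (b i : ℂ) := by
      have h4 := congrArg (fun z : P₂ L => (z : ℂ)) hg
      have h5 : ((∑ i, g i • b i : P₂ L) : ℂ) = ∑ i, (g i : ℂ) * (b i : ℂ) := by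
        rw [← Submodule.coe_subtype, map_sum]
        rfl
      change ((∑ i, g i • b i : P₂ L) : ℂ) = x at h4
      rw [← h4, h5]
      rfl
    change x ∈ Submodule.span ↥(Et.k L ⊔ Λ) (Set.range (fun i => (b i : ℂ)))
    rw [h3]
    exact Submodule.sum_mem _ (fun i _ => Submodule.smul_mem _ _ (Submodule.subset_span ⟨i, rfl⟩))
  have h2 : FiniteDimensional ↥(Et.k L ⊔ Λ)
      (Submodule.span ↥(Et.k L ⊔ Λ) (Set.range (fun i => (b i : ℂ)))) :=
    FiniteDimensional.span_of_finite _ (Set.finite_range _)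
  refine (Submodule.finrank_mono h1).trans ?_
  have h3 := finrank_range_le_card (R := ↥(Et.k L ⊔ Λ)) (fun i => (b i : ℂ))
  rw [Fintype.card_fin] at h3
  exact h3

theorem dim_p (hD : LinDisj Λ K) (hkK : ∀ a ∈ kL L, a ∈ K) (hc : c ≠ 0) (p : Fin n → ℂ) :
    finrank (kL L) (V₂ L p ⊓ cK hkK c : Submodule (kL L) ℂ) ≤
      dimMod (PL Λ L) p + finrank ↥(Et.k L ⊔ Λ) (PL Λ L) ∧
    ∃ w : Fin (dimMod (PL Λ L) p + finrank ↥(Et.k L ⊔ Λ) (PL Λ L) -
        finrank (kL L) (V₂ L p ⊓ cK hkK c : Submodule (kL L) ℂ)) → ℂ,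
      ∀ δ : Derivation ℚ ℂ ℂ, (∀ x ∈ K, δ x = 0) → (∀ x ∈ Λ, δ x = 0) → δ c = 0 →
        (∀ i, δ (w i) = 0) → ∀ i, δ (p i) = 0 := by
  classical
  have hsf : FiniteDimensional ↥(Et.k L ⊔ Λ) (Submodule.span ↥(Et.k L ⊔ Λ) (Set.range p)) :=
    FiniteDimensional.span_of_finite _ (Set.finite_range p)
  have hW := finrank_mod (PL Λ L) p
  change dimMod (PL Λ L) p + _ = _ at hW
  have hBf : FiniteDimensional (kL L) (V₂ L p ⊓ cK hkK c : Submodule (kL L) ℂ) :=
    Submodule.finiteDimensional_of_le inf_le_left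
  have hle : ∀ x ∈ V₂ L p, x ∈ (PL Λ L ⊔ Submodule.span ↥(Et.k L ⊔ Λ) (Set.range p)) := by
    intro x hx
    obtain ⟨u, hu, v, hv, rfl⟩ := Submodule.mem_sup.1 hx
    refine Submodule.add_mem _ (Submodule.mem_sup_left (P₂_sub Λ hu))
      (Submodule.mem_sup_right ?_)
    obtain ⟨g, hg⟩ := (Submodule.mem_span_range_iff_exists_fun (kL L)).1 hv
    rw [← hg]
    refine Submodule.sum_mem _ (fun i _ => ?_)
    have h3 : g i • p i = (⟨(g i : ℂ), (le_sup_left : Et.k L ≤ Et.k L ⊔ Λ) (g i).2⟩ :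
        ↥(Et.k L ⊔ Λ)) • p i := rfl
    rw [h3]
    exact Submodule.smul_mem _ _ (Submodule.subset_span ⟨i, rfl⟩)
  obtain ⟨h1, w, -, h2⟩ := part (k := kL L) (K' := ↥(Et.k L ⊔ Λ)) (F := K)
    (fun m e he hi => hD.sup (k := kL L) hkK he hi) (A := V₂ L p ⊓ cK hkK c)
    (W := PL Λ L ⊔ Submodule.span ↥(Et.k L ⊔ Λ) (Set.range p)) (c := c) hc
    (fun v hv => hv.2) (fun v hv => hle v hv.1)
  rw [hW]
  refine ⟨h1, w, fun δ hδ hδΛ hcδ hw i => h2 δ hδ (fun x => ?_) hcδ hw _ ?_⟩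
  · -- the compositum is killed
    let N : IntermediateField ℚ ℂ :=
      { carrier := {y | δ y = 0}
        mul_mem' := fun {a b} ha hb => by
          rw [Set.mem_ofPred_eq] at ha hb ⊢
          rw [Derivation.leibniz, ha, hb, smul_zero, smul_zero, add_zero]
        add_mem' := fun {a b} ha hb => by
          rw [Set.mem_ofPred_eq] at ha hb ⊢
          rw [map_add, ha, hb, add_zero]
        algebraMap_mem' := fun r => δ.map_algebraMap r
        inv_mem' := fun a ha => by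
          have ha' : δ a = 0 := ha
          change δ a⁻¹ = 0
          rw [Derivation.leibniz_inv, ha', smul_zero] }
    have hN : Et.k L ⊔ Λ ≤ N := sup_le (fun a ha => hδ _ (hkK a ha)) (fun a ha => hδΛ a ha)
    exact hN x.2
  · exact Submodule.mem_sup_right (Submodule.subset_span ⟨i, rfl⟩)

end Pool.Agent.E8helper96.KP
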