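import Mathlib
import Pool.Agent.E8helper96.KP.Main
import Pool.Agent.Y776.ET.Main

/-!
# The elliptico-toric inequality in spaces over a field which is linearly disjoint from a closed
field: conclusion (helper96)
-/

set_option autoImplicit false

open Module
open scoped PeriodPair

noncomputable section

namespace Pool.Agent.E8helper96.KP

open H667R3 Pool.Agent.W245.EB Pool.Agent.TH813.Ell Pool.Agent.Y776 Pool.Agent.Y685
  Pool.Agent.Y776.ET2
open Pool.Agent.TH813.Rel (DF MK mem_cl subset_cl rk_le_of_subset_cl cl_of_base)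
open Pool.Agent.Y776.Et (dimMod T₀ P₀ gen gen_GA trd trd_of_rank gen_finite rank_finite)

variable {n s : ℕ} {L L' : PeriodPair} {c : ℂ} {K : Subfield ℂ}
  {Λ : IntermediateField ℚ ℂ}

theorem le_trd {E : Type} [Field E] [Algebra E ℂ] {S : Set ℂ} (hS : S.Finite) {N M : ℕ} :
    ((N : ℕ) : ℕ∞) ≤ (MK E).eRk S + M ↔ ((N : ℕ) : Cardinal) ≤ trd E S + M := by
  obtain ⟨g, hg⟩ := rank_finite (K := E) hS
  rw [trd_of_rank hg, hg]
  norm_cast

/-- **The whole elliptico-toric field**, over `F(Λ)` -/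
theorem mainI (hK : Fld K) (hD : LinDisj Λ K) {r : ℕ} (hr : Algebra.trdeg ℚ Λ = r) (hr0 : 0 < r)
    (L : PeriodPair) (t : Fin s → ℂ) (p : Fin n → ℂ) {E : IntermediateField ℚ ℂ}
    (hE : ∀ δ : Derivation ℚ ℂ ℂ, (∀ x ∈ K, δ x = 0) → (∀ x ∈ Λ, δ x = 0) → ∀ x ∈ E, δ x = 0) :
    ((dimMod T₀ t + 2 * dimMod (P₀ L) p + 1 : ℕ) : ℕ∞) ≤ (MK E).eRk (GA L t p) +
      ((dimMod (TL Λ) t + 2 * dimMod (PL Λ L) p + r : ℕ) : ℕ∞) := by
  classical
  obtain ⟨A₀, hA₀, hA₀r, hA₀Λ, hA₀δ⟩ := exists_tb Λ hr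
  have hEc : E ≤ clo (IFd K) A₀ := by
    intro x hx D hDK hDA
    exact hE D (fun y hy => hDK y hy) (hA₀δ D hDA) x hx
  have hstep := rank_step hA₀ (GA_finite (L := L) t p) hEc
  have hA₀' : (MK (IFd K)).eRk A₀ ≤ r := ((MK (IFd K)).eRk_le_encard _).trans hA₀r
  have hmono : (MK (IFd K)).eRk (GA L t p) ≤ (MK (IFd K)).eRk (A₀ ∪ GA L t p) :=
    (MK (IFd K)).eRk_mono Set.subset_union_right
  have hkey : (MK (IFd K)).eRk (GA L t p) ≤ r + (MK E).eRk (GA L t p) :=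
    hmono.trans (hstep.trans (add_le_add hA₀' le_rfl))
  obtain ⟨g, hg⟩ := rank_finite (K := E) (GA_finite (L := L) t p)
  obtain ⟨g', hg'⟩ := rank_finite (K := IFd K) (GA_finite (L := L) t p)
  rw [hg, hg'] at hkey
  rw [hg]
  obtain ⟨ht1, -⟩ := dim_t hD t
  have e1 : dimMod T₀ t + 1 = finrank ℚ (VT t) := d₁_eq t
  have e2 : dimMod (P₀ L) p + finrank (kL L) (P₂ L) = finrank (kL L) (V₂ L p) := d₂_eq p
  norm_cast at hkey ⊢
  by_cases hj : jv L ∈ K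
  · obtain ⟨L', c, h, hL', hcδ⟩ := exists_norm hK hj
    have hkK : ∀ a ∈ kL L, a ∈ K := fun a ha => kL_mem hL' (h.kL.2 ha)
    obtain ⟨hp1, -⟩ := dim_p hD hkK h.c0 p
    have hp2 := finrank_PL_le Λ L
    have hle1 : finrank ℚ (VT t ⊓ FQ (IFd K) : Submodule ℚ ℂ) ≤ finrank ℚ (VT t) :=
      Submodule.finrank_mono inf_le_left
    have hle2 : finrank (kL L) (V₂ L p ⊓ cK hkK c : Submodule (kL L) ℂ) ≤
        finrank (kL L) (V₂ L p) := Submodule.finrank_mono inf_le_left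
    obtain ⟨b, hb⟩ := Nat.exists_eq_add_of_le hle1
    obtain ⟨y, hy⟩ := Nat.exists_eq_add_of_le hle2
    rcases Nat.eq_zero_or_pos (b + y) with h0 | h0
    · omega
    · have h1 := low hK h hL' hcδ t p (V₂ L p ⊓ cK hkK c) inf_le_left
        (fun v hv hv' => ⟨hv, hv'⟩) (b := b) (y := y) (by omega) (by omega) h0
      rw [hg'] at h1
      norm_cast at h1
      omega
  · have hR : RkF (IFd K) L := fun s n t p ht hp => (hK.gen L hj).2 s n t p ht hp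
    have h1 := rank_GA (F := IFd K) (fun x hx => hK.exp x hx) hR le_rfl t p
    rw [hg'] at h1
    have h2 : ((dimMod T₀ t + 4 + 2 * dimMod (P₀ L) p + 1 : ℕ) : ℕ∞) ≤
        ((g' : ℕ) : ℕ∞) + ((finrank ℚ (VT t ⊓ FQ (IFd K) : Submodule ℚ ℂ) : ℕ) : ℕ∞) :=
      le_trans le_add_self h1
    norm_cast at h2
    omega

/-- the new numbers -/
def NewS (L : PeriodPair) (t : Fin s → ℂ) (p : Fin n → ℂ) : Set ℂ :=
  Set.range (fun i => Complex.exp (t i)) ∪
    (Set.range (fun i => ℘[L] (p i)) ∪ Set.range (fun i => zt L (p i)))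

theorem NewS_finite (t : Fin s → ℂ) (p : Fin n → ℂ) : (NewS L t p).Finite :=
  (Set.finite_range _).union ((Set.finite_range _).union (Set.finite_range _))

/-- **The exponentials and the elliptic functions**, over `F(Λ, t, p)` -/
theorem mainII (hK : Fld K) (hD : LinDisj Λ K) {r : ℕ} (hr : Algebra.trdeg ℚ Λ = r) (hr0 : 0 < r)
    {L : PeriodPair} (hL : L ∈ LK K) (t : Fin s → ℂ) (p : Fin n → ℂ) {E : IntermediateField ℚ ℂ}
    (hE : ∀ δ : Derivation ℚ ℂ ℂ, (∀ x ∈ K, δ x = 0) → (∀ x ∈ Λ, δ x = 0) →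
      (∀ i, δ (t i) = 0) → (∀ i, δ (p i) = 0) → ∀ x ∈ E, δ x = 0) :
    ((dimMod T₀ t + 2 * dimMod (P₀ L) p + 1 : ℕ) : ℕ∞) ≤ (MK E).eRk (NewS L t p) +
      ((dimMod (TL Λ) t + 2 * dimMod (PL Λ L) p + r : ℕ) : ℕ∞) := by
  classical
  have hkK : ∀ a ∈ kL L, a ∈ K := fun a ha => kL_mem hL ha
  obtain ⟨A₀, hA₀, hA₀r, hA₀Λ, hA₀δ⟩ := exists_tb Λ hr
  obtain ⟨ht1, w₁, hw₁⟩ := dim_t hD t
  obtain ⟨hp1, w₂, hw₂⟩ := dim_p hD hkK (one_ne_zero (α := ℂ)) p
  have hp2 := finrank_PL_le Λ L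
  -- the base
  set T : Set ℂ := A₀ ∪ (Set.range t ∪ Set.range p) with hT
  have hTfin : T.Finite := hA₀.union ((Set.finite_range t).union (Set.finite_range p))
  have hEc : E ≤ clo (IFd K) T := by
    intro x hx D hDK hDT
    exact hE D (fun y hy => hDK y hy) (hA₀δ D (fun y hy => hDT y (Or.inl hy)))
      (fun i => hDT _ (Or.inr (Or.inl ⟨i, rfl⟩))) (fun i => hDT _ (Or.inr (Or.inr ⟨i, rfl⟩))) x hx
  have hTr : (MK (IFd K)).eRk T ≤
      ((r + ((dimMod (TL Λ) t + 1 - finrank ℚ (VT t ⊓ FQ (IFd K) : Submodule ℚ ℂ)) +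
        (dimMod (PL Λ L) p + finrank ↥(Et.k L ⊔ Λ) (PL Λ L) -
          finrank (kL L) (V₂ L p ⊓ cK hkK 1 : Submodule (kL L) ℂ))) : ℕ) : ℕ∞) := by
    have h1 : (MK (IFd K)).eRk T ≤ (MK (IFd K)).eRk (A₀ ∪ (Set.range w₁ ∪ Set.range w₂)) := by
      apply rk_le_of_subset_cl
      intro x hx
      rw [mem_cl_iff]
      intro D hDK hDS
      have hΛ := hA₀δ D (fun y hy => hDS y (Or.inl hy))
      rcases hx with hx | ⟨i, rfl⟩ | ⟨i, rfl⟩
      · exact hDS _ (Or.inl hx)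
      · exact hw₁ D (fun y hy => hDK y hy) hΛ (fun i => hDS _ (Or.inr (Or.inl ⟨i, rfl⟩))) i
      · exact hw₂ D (fun y hy => hDK y hy) hΛ D.map_one_eq_zero
          (fun i => hDS _ (Or.inr (Or.inr ⟨i, rfl⟩))) i
    refine h1.trans (((MK (IFd K)).eRk_le_encard _).trans ?_)
    refine (Set.encard_union_le _ _).trans ?_
    push_cast
    refine add_le_add hA₀r ((Set.encard_union_le _ _).trans (add_le_add ?_ ?_))
    · rw [← Set.image_univ]
      refine (Set.encard_image_le _ _).trans ?_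
      rw [Set.encard_univ, ENat.card_eq_coe_fintype_card, Fintype.card_fin]
      exact_mod_cast le_rfl
    · rw [← Set.image_univ]
      refine (Set.encard_image_le _ _).trans ?_
      rw [Set.encard_univ, ENat.card_eq_coe_fintype_card, Fintype.card_fin]
      exact_mod_cast le_rfl
  have hstep := rank_step hTfin (NewS_finite (L := L) t p) hEc
  -- all the numbers
  have hall : (MK (IFd K)).eRk (Y776.ET t ∪ EP L p) ≤ (MK (IFd K)).eRk (T ∪ NewS L t p) := by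
    apply (MK (IFd K)).eRk_mono
    rintro x ((⟨i, rfl⟩ | ⟨i, rfl⟩) | ⟨i, rfl⟩ | ⟨i, rfl⟩ | ⟨i, rfl⟩)
    · exact Or.inl (Or.inr (Or.inl ⟨i, rfl⟩))
    · exact Or.inr (Or.inl ⟨i, rfl⟩)
    · exact Or.inl (Or.inr (Or.inr ⟨i, rfl⟩))
    · exact Or.inr (Or.inr (Or.inr ⟨i, rfl⟩))
    · exact Or.inr (Or.inr (Or.inl ⟨i, rfl⟩))
  have hkey := (GA_fix hK hL t p).trans (hall.trans (hstep.trans (add_le_add hTr le_rfl)))
  obtain ⟨g, hg⟩ := rank_finite (K := E) (NewS_finite (L := L) t p)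
  obtain ⟨g', hg'⟩ := rank_finite (K := IFd K) (GA_finite (L := L) t p)
  rw [hg, hg'] at hkey
  rw [hg]
  have e1 : dimMod T₀ t + 1 = finrank ℚ (VT t) := d₁_eq t
  have e2 : dimMod (P₀ L) p + finrank (kL L) (P₂ L) = finrank (kL L) (V₂ L p) := d₂_eq p
  norm_cast at hkey ⊢
  have hle1 : finrank ℚ (VT t ⊓ FQ (IFd K) : Submodule ℚ ℂ) ≤ finrank ℚ (VT t) := Submodule.finrank_mono inf_le_left
  have hle2 : finrank (kL L) (V₂ L p ⊓ cK hkK 1 : Submodule (kL L) ℂ) ≤ finrank (kL L) (V₂ L p) := Submodule.finrank_mono inf_le_left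
  obtain ⟨b, hb⟩ := Nat.exists_eq_add_of_le hle1
  obtain ⟨y, hy⟩ := Nat.exists_eq_add_of_le hle2
  rcases Nat.eq_zero_or_pos (b + y) with h0 | h0
  · omega
  · have h1 := low hK (Hm_one L) hL (fun δ _ _ => δ.map_one_eq_zero) t p
      (V₂ L p ⊓ cK hkK 1) inf_le_left
      (fun v hv hv' => ⟨hv, hv'⟩) (b := b) (y := y) (by omega) (by omega) h0
    rw [hg'] at h1
    norm_cast at h1
    omega

end Pool.Agent.E8helper96.KP
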