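import Mathlib
import Pool.Agent.E8helper96.KP.Fin

/-!
# Geometric progressions (helper96)
-/

set_option autoImplicit false

open Module
open scoped PeriodPair

noncomputable section

namespace Pool.Agent.E8helper96.KP

open H667R3 Pool.Agent.W245.EB Pool.Agent.TH813.Ell Pool.Agent.Y776 Pool.Agent.Y685
  Pool.Agent.Y776.ET2
open Pool.Agent.TH813.Rel (DF MK mem_cl subset_cl rk_le_of_subset_cl cl_of_base)
open Pool.Agent.Y776.Et (dimMod T₀ P₀ gen gen_GA trd trd_of_rank gen_finite rank_finite)

variable {n s : ℕ} {L L' : PeriodPair} {c : ℂ} {K : Subfield ℂ}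
  {Λ : IntermediateField ℚ ℂ}

/-- derivations which kill generators kill the field -/
theorem kill_adjoin {δ : Derivation ℚ ℂ ℂ} {S : Set ℂ} (h : ∀ x ∈ S, δ x = 0) :
    ∀ x ∈ IntermediateField.adjoin ℚ S, δ x = 0 := by
  let N : IntermediateField ℚ ℂ :=
    { carrier := {y | δ y = 0}
      mul_mem' := fun {a b} ha hb => by
        rw [Set.mem_ofPred_eq] at ha hb ⊢
        rw [Derivation.leibniz, ha, hb, smul_zero, smul_zero, add_zero]
      add_mem' := fun {a b} ha hb => by
        rw [Set.mem_ofPred_eq] at ha hb ⊢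
        rw [map_add, ha, hb, add_zero]
      algebraMap_mem' := fun r => δ.map_algebraMap r
      inv_mem' := fun a ha => by
        have ha' : δ a = 0 := ha
        change δ a⁻¹ = 0
        rw [Derivation.leibniz_inv, ha', smul_zero] }
  have hN : IntermediateField.adjoin ℚ S ≤ N := IntermediateField.adjoin_le_iff.2 h
  exact fun x hx => hN hx

/-- the members of the progressions -/
def pr (l : ℂ) {s : ℕ} (m : ℕ) (t : Fin s → ℂ) : Fin (s * (m + 1)) → ℂ :=
  fun q => l ^ ((finProdFinEquiv.symm q).2 : ℕ) * t (finProdFinEquiv.symm q).1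

theorem pr_mem {l : ℂ} {m : ℕ} {t : Fin s → ℂ} (i : Fin s) {j : ℕ} (hj : j ≤ m) :
    ∃ q, pr l m t q = l ^ j * t i :=
  ⟨finProdFinEquiv (i, ⟨j, Nat.lt_succ_of_le hj⟩), by simp [pr]⟩

theorem dimMod_le_of {k : Type} [Field k] [Module k ℂ] (A : Submodule k ℂ) {a b : ℕ}
    {z : Fin a → ℂ} {w : Fin b → ℂ} (h : ∀ i, z i ∈ Submodule.span k (Set.range w)) :
    dimMod A z ≤ b := by
  unfold dimMod
  have h1 : Submodule.span k (Set.range (fun i => A.mkQ (z i))) ≤
      Submodule.span k (Set.range (fun i => A.mkQ (w i))) := by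
    rw [Submodule.span_le]
    rintro _ ⟨i, rfl⟩
    have h2 := Submodule.mem_map_of_mem (f := A.mkQ) (h i)
    rw [Submodule.map_span, ← Set.range_comp] at h2
    exact h2
  have hf : FiniteDimensional k (Submodule.span k (Set.range (fun i => A.mkQ (w i)))) :=
    FiniteDimensional.span_of_finite k (Set.finite_range _)
  refine (Submodule.finrank_mono h1).trans ?_
  have h3 := finrank_range_le_card (R := k) (fun i => A.mkQ (w i))
  rw [Fintype.card_fin] at h3
  exact h3

theorem dimMod_eq_of {k : Type} [Field k] [Module k ℂ] (A : Submodule k ℂ) {a : ℕ}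
    {z : Fin a → ℂ} (h : ∀ g : Fin a → k, ∑ i, g i • z i ∈ A → g = 0) : dimMod A z = a := by
  unfold dimMod
  have h1 : LinearIndependent k (fun i => A.mkQ (z i)) := by
    rw [Fintype.linearIndependent_iff]
    intro g hg i
    have h2 : ∑ i, g i • A.mkQ (z i) = A.mkQ (∑ i, g i • z i) := by
      rw [map_sum]
      exact Finset.sum_congr rfl (fun i _ => (map_smul _ _ _).symm)
    rw [h2] at hg
    exact congrFun (h g ((Submodule.Quotient.mk_eq_zero _).1 hg)) i
  rw [finrank_span_eq_card h1, Fintype.card_fin]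

/-- the polynomials which belong to the coefficients of a combination of the members of the
progressions -/
theorem pr_sum {k : Type} [Field k] [Algebra k ℂ] {l : ℂ} {m : ℕ} {t : Fin s → ℂ}
    (g : Fin (s * (m + 1)) → k) : ∑ q, g q • pr l m t q =
      ∑ i, Polynomial.aeval l (∑ j : Fin (m + 1),
        Polynomial.monomial (j : ℕ) (g (finProdFinEquiv (i, j)))) * t i := by
  rw [← finProdFinEquiv.sum_comp, Fintype.sum_prod_type]
  refine Finset.sum_congr rfl (fun i _ => ?_)
  rw [map_sum, Finset.sum_mul]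
  refine Finset.sum_congr rfl (fun j _ => ?_)
  rw [Polynomial.aeval_monomial, pr, Equiv.symm_apply_apply, Algebra.smul_def, mul_assoc]

theorem poly_zero {k : Type} [Field k] {m : ℕ} {g : Fin (s * (m + 1)) → k}
    (h : ∀ i, (∑ j : Fin (m + 1), Polynomial.monomial (j : ℕ) (g (finProdFinEquiv (i, j)))) =
      (0 : Polynomial k)) : g = 0 := by
  funext q
  obtain ⟨⟨i, j⟩, rfl⟩ := finProdFinEquiv.surjective q
  have h1 := congrArg (fun P => Polynomial.coeff P (j : ℕ)) (h i)
  simp only [Polynomial.finsetSum_coeff, Polynomial.coeff_monomial, Polynomial.coeff_zero] at h1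
  rw [Finset.sum_eq_single j] at h1
  · simpa using h1
  · intro b _ hb
    rw [if_neg]
    intro h2
    exact hb (Fin.ext h2)
  · intro h2
    exact absurd (Finset.mem_univ _) h2

end Pool.Agent.E8helper96.KP
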